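import Pool.Agent.Run7.h356.LP.Stm

/-!
Piece FIN: the inequality for finitely many forms.
-/

set_option autoImplicit false

noncomputable section

open MeasureTheory Filter Topology Set
open scoped BigOperators Matrix ENNReal

namespace H160LP

open H712MA H356LP

section norms

variable {κ : Type} [Fintype κ] {n : ℕ} {p q : ℝ} (l : κ → Fin n → ℝ)

/-- the norm -/
def gN (p : ℝ) (x : Fin n → ℝ) : ℝ := (∑ k, |l k ⬝ᵥ x| ^ p) ^ (1 / p)

theorem gN_sum_nonneg (x : Fin n → ℝ) : 0 ≤ ∑ k, |l k ⬝ᵥ x| ^ p :=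
  Finset.sum_nonneg fun k _ => Real.rpow_nonneg (abs_nonneg _) _

theorem gN_pow (hp : 0 < p) (x : Fin n → ℝ) : gN l p x ^ p = ∑ k, |l k ⬝ᵥ x| ^ p := by
  rw [gN, ← Real.rpow_mul (gN_sum_nonneg l x), one_div, inv_mul_cancel₀ hp.ne', Real.rpow_one]

theorem gN_nonneg (x : Fin n → ℝ) : 0 ≤ gN l p x := Real.rpow_nonneg (gN_sum_nonneg l x) _

theorem gN_le_one (hp : 0 < p) (x : Fin n → ℝ) : gN l p x ≤ 1 ↔ x ∈ KK p l := by
  rw [← Real.rpow_le_rpow_iff (gN_nonneg l x) zero_le_one hp, gN_pow l hp, Real.one_rpow]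
  rfl

theorem gN_zero (hp : 0 < p) : gN l p 0 = 0 := by
  simp [gN, hp.ne', Real.zero_rpow]

theorem gN_neg (x : Fin n → ℝ) : gN l p (-x) = gN l p x := by
  simp [gN, dotProduct_neg]

theorem gN_add (hp : 1 ≤ p) (x y : Fin n → ℝ) : gN l p (x + y) ≤ gN l p x + gN l p y := by
  have := Real.Lp_add_le Finset.univ (fun k => l k ⬝ᵥ x) (fun k => l k ⬝ᵥ y) hp
  simpa [gN, dotProduct_add] using this

theorem gN_smul (hp : 0 < p) (r : ℝ) (x : Fin n → ℝ) : gN l p (r • x) = |r| * gN l p x := by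
  unfold gN
  have h : ∀ k, |l k ⬝ᵥ (r • x)| ^ p = |r| ^ p * |l k ⬝ᵥ x| ^ p := by
    intro k
    rw [dotProduct_smul, smul_eq_mul, abs_mul, Real.mul_rpow (abs_nonneg _) (abs_nonneg _)]
  simp_rw [h]
  rw [← Finset.mul_sum, Real.mul_rpow (Real.rpow_nonneg (abs_nonneg _) _) (gN_sum_nonneg l x),
    ← Real.rpow_mul (abs_nonneg _), mul_one_div_cancel hp.ne', Real.rpow_one]

theorem gN_def (hp : 0 < p) (hS : Spans l) (x : Fin n → ℝ) (h : gN l p x = 0) : x = 0 := by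
  have h1 : ∑ k, |l k ⬝ᵥ x| ^ p = 0 := by rw [← gN_pow l hp, h, Real.zero_rpow hp.ne']
  have h2 : ∀ k, l k ⬝ᵥ x = 0 := by
    intro k
    have h3 := (Finset.sum_eq_zero_iff_of_nonneg
      (fun k _ => Real.rpow_nonneg (abs_nonneg _) _)).1 h1 k (Finset.mem_univ k)
    have h4 := (Real.rpow_eq_zero (abs_nonneg _) hp.ne').1 h3
    exact abs_eq_zero.1 h4
  obtain ⟨f, hf⟩ := hS
  have h3 : (Matrix.of fun i j => l (f i) j) *ᵥ x = 0 := funext fun i => h2 (f i)
  exact Matrix.eq_zero_of_mulVec_eq_zero hf h3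

theorem rep (hS : Spans l) (y : Fin n → ℝ) : ∃ F : κ → ℝ, y = ∑ k, F k • l k := by
  classical
  obtain ⟨f, hf⟩ := hS
  have hu : IsUnit (Matrix.of fun i j => l (f i) j).det := isUnit_iff_ne_zero.2 hf
  set c : Fin n → ℝ := y ᵥ* (Matrix.of fun i j => l (f i) j)⁻¹ with hc
  have h1 : c ᵥ* (Matrix.of fun i j => l (f i) j) = y := by
    rw [hc, Matrix.vecMul_vecMul, Matrix.nonsing_inv_mul _ hu, Matrix.vecMul_one]
  refine ⟨fun k => ∑ i, if f i = k then c i else 0, ?_⟩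
  funext j
  have h2 : y j = ∑ i, c i * l (f i) j := by
    conv_lhs => rw [← h1]
    rfl
  rw [h2, Finset.sum_apply]
  simp only [Pi.smul_apply, smul_eq_mul, Finset.sum_mul, ite_mul, zero_mul]
  rw [Finset.sum_comm]
  refine Finset.sum_congr rfl fun i _ => ?_
  rw [Finset.sum_ite_eq]
  simp

theorem hold (hpq : p.HolderConjugate q) (F : κ → ℝ) (x : Fin n → ℝ) (hx : x ∈ KK p l) :
    ∑ i, x i * (∑ k, F k • l k) i ≤ (∑ k, |F k| ^ q) ^ (1 / q) := by
  have h1 : ∑ i, x i * (∑ k, F k • l k) i = ∑ k, (l k ⬝ᵥ x) * F k := by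
    simp only [Finset.sum_apply, Pi.smul_apply, smul_eq_mul, Finset.mul_sum, dotProduct,
      Finset.sum_mul]
    rw [Finset.sum_comm]
    refine Finset.sum_congr rfl fun k _ => Finset.sum_congr rfl fun i _ => ?_
    ring
  rw [h1]
  have h2 := Real.inner_le_Lp_mul_Lq Finset.univ (fun k => l k ⬝ᵥ x) F hpq
  have h3 : (∑ k, |l k ⬝ᵥ x| ^ p) ^ (1 / p) ≤ 1 := (gN_le_one l hpq.pos x).2 hx
  have h4 : 0 ≤ (∑ k, |F k| ^ q) ^ (1 / q) :=
    Real.rpow_nonneg (Finset.sum_nonneg fun k _ => Real.rpow_nonneg (abs_nonneg _) _) _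
  calc ∑ k, (l k ⬝ᵥ x) * F k ≤ (∑ k, |l k ⬝ᵥ x| ^ p) ^ (1 / p) * (∑ k, |F k| ^ q) ^ (1 / q) := h2
    _ ≤ 1 * (∑ k, |F k| ^ q) ^ (1 / q) := mul_le_mul_of_nonneg_right h3 h4
    _ = _ := one_mul _

/-- the dual norm -/
def dN (K : Set (Fin n → ℝ)) (y : Fin n → ℝ) : ℝ := sSup ((fun x => ∑ i, x i * y i) '' K)

theorem bdd (hpq : p.HolderConjugate q) (hS : Spans l) (y : Fin n → ℝ) :
    BddAbove ((fun x => ∑ i, x i * y i) '' KK p l) := by
  obtain ⟨F, hF⟩ := rep l hS y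
  refine ⟨(∑ k, |F k| ^ q) ^ (1 / q), ?_⟩
  rintro _ ⟨x, hx, rfl⟩
  have := hold l hpq F x hx
  rw [← hF] at this
  exact this

theorem zero_mem (hp : 0 < p) : (0 : Fin n → ℝ) ∈ KK p l :=
  (gN_le_one l hp 0).1 (by rw [gN_zero l hp]; exact zero_le_one)

theorem neg_mem (hp : 0 < p) {x : Fin n → ℝ} (hx : x ∈ KK p l) : -x ∈ KK p l :=
  (gN_le_one l hp _).1 (by rw [gN_neg]; exact (gN_le_one l hp x).2 hx)

theorem dN_ne (hp : 0 < p) (y : Fin n → ℝ) : ((fun x => ∑ i, x i * y i) '' KK p l).Nonempty :=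
  ⟨_, ⟨0, zero_mem l hp, rfl⟩⟩

theorem le_dN (hpq : p.HolderConjugate q) (hS : Spans l) (y x : Fin n → ℝ) (hx : x ∈ KK p l) :
    ∑ i, x i * y i ≤ dN (KK p l) y := le_csSup (bdd l hpq hS y) ⟨x, hx, rfl⟩

theorem dN_nonneg (hpq : p.HolderConjugate q) (hS : Spans l) (y : Fin n → ℝ) :
    0 ≤ dN (KK p l) y := by
  have := le_dN l hpq hS y 0 (zero_mem l hpq.pos)
  simpa using this

theorem dN_le (hpq : p.HolderConjugate q) (y : Fin n → ℝ) (c : ℝ)
    (h : ∀ x ∈ KK p l, ∑ i, x i * y i ≤ c) : dN (KK p l) y ≤ c := by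
  refine csSup_le (dN_ne l hpq.pos y) ?_
  rintro _ ⟨x, hx, rfl⟩
  exact h x hx

theorem dN_le_one (hpq : p.HolderConjugate q) (hS : Spans l) (y : Fin n → ℝ) :
    dN (KK p l) y ≤ 1 ↔ y ∈ PP (KK p l) := by
  constructor
  · intro h x hx
    exact (le_dN l hpq hS y x hx).trans h
  · intro h
    exact dN_le l hpq y 1 h

theorem dN_abs (hpq : p.HolderConjugate q) (hS : Spans l) (y x : Fin n → ℝ) (hx : x ∈ KK p l) :
    |∑ i, x i * y i| ≤ dN (KK p l) y := by
  refine abs_le.2 ⟨?_, le_dN l hpq hS y x hx⟩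
  have := le_dN l hpq hS y (-x) (neg_mem l hpq.pos hx)
  simp only [Pi.neg_apply, neg_mul, Finset.sum_neg_distrib] at this
  linarith

theorem dN_smul (hpq : p.HolderConjugate q) (hS : Spans l) (r : ℝ) (y : Fin n → ℝ) :
    dN (KK p l) (r • y) ≤ |r| * dN (KK p l) y := by
  refine dN_le l hpq _ _ fun x hx => ?_
  have h1 : ∑ i, x i * (r • y) i = r * ∑ i, x i * y i := by
    rw [Finset.mul_sum]
    refine Finset.sum_congr rfl fun i _ => ?_
    simp only [Pi.smul_apply, smul_eq_mul]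
    ring
  rw [h1]
  calc r * ∑ i, x i * y i ≤ |r * ∑ i, x i * y i| := le_abs_self _
    _ = |r| * |∑ i, x i * y i| := abs_mul _ _
    _ ≤ |r| * dN (KK p l) y := mul_le_mul_of_nonneg_left (dN_abs l hpq hS y x hx) (abs_nonneg _)

theorem dN_zero (hpq : p.HolderConjugate q) (hS : Spans l) : dN (KK p l) 0 = 0 := by
  refine le_antisymm (dN_le l hpq _ _ fun x _ => ?_) (dN_nonneg l hpq hS 0)
  simp

theorem dN_neg (hpq : p.HolderConjugate q) (hS : Spans l) (y : Fin n → ℝ) :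
    dN (KK p l) (-y) = dN (KK p l) y := by
  have h1 : ∀ z : Fin n → ℝ, dN (KK p l) (-z) ≤ dN (KK p l) z := by
    intro z
    have := dN_smul l hpq hS (-1) z
    simpa using this
  refine le_antisymm (h1 y) ?_
  have := h1 (-y)
  rwa [neg_neg] at this

theorem dN_add (hpq : p.HolderConjugate q) (hS : Spans l) (y z : Fin n → ℝ) :
    dN (KK p l) (y + z) ≤ dN (KK p l) y + dN (KK p l) z := by
  refine dN_le l hpq _ _ fun x hx => ?_
  have h1 : ∑ i, x i * (y + z) i = ∑ i, x i * y i + ∑ i, x i * z i := by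
    rw [← Finset.sum_add_distrib]
    refine Finset.sum_congr rfl fun i _ => ?_
    simp only [Pi.add_apply]
    ring
  rw [h1]
  exact add_le_add (le_dN l hpq hS y x hx) (le_dN l hpq hS z x hx)

theorem dN_def (hpq : p.HolderConjugate q) (hS : Spans l) (y : Fin n → ℝ)
    (h : dN (KK p l) y = 0) : y = 0 := by
  have hg := gN_nonneg (p := p) l y
  set ε : ℝ := 1 / (1 + gN l p y) with hε
  have hε0 : 0 < ε := by rw [hε]; positivity
  have h1 : ε • y ∈ KK p l := by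
    refine (gN_le_one l hpq.pos _).1 ?_
    rw [gN_smul l hpq.pos, abs_of_pos hε0, hε, one_div, inv_mul_le_iff₀ (by positivity)]
    linarith
  have h2 := le_dN l hpq hS y _ h1
  rw [h] at h2
  have h3 : ∑ i, (ε • y) i * y i = ε * ∑ i, y i * y i := by
    rw [Finset.mul_sum]
    refine Finset.sum_congr rfl fun i _ => ?_
    simp only [Pi.smul_apply, smul_eq_mul]
    ring
  rw [h3] at h2
  have h4 : 0 ≤ ∑ i, y i * y i := Finset.sum_nonneg fun i _ => mul_self_nonneg _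
  have h5 : ∑ i, y i * y i = 0 := by nlinarith
  funext i
  have := (Finset.sum_eq_zero_iff_of_nonneg (fun i _ => mul_self_nonneg (y i))).1 h5 i
    (Finset.mem_univ i)
  exact mul_self_eq_zero.1 this

theorem dN_form (hpq : p.HolderConjugate q) (hS : Spans l) (F : κ → ℝ) :
    dN (KK p l) (∑ k, F k • l k) ^ q ≤ ∑ k, |F k| ^ q := by
  have h1 := dN_le l hpq (∑ k, F k • l k) _ fun x hx => hold l hpq F x hx
  have h2 := Real.rpow_le_rpow (dN_nonneg l hpq hS _) h1 hpq.symm.pos.le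
  rwa [← Real.rpow_mul (Finset.sum_nonneg fun k _ => Real.rpow_nonneg (abs_nonneg _) _), one_div,
    inv_mul_cancel₀ hpq.symm.pos.ne', Real.rpow_one] at h2

end norms

theorem FIN (h1 : S_DAT) (h2 : S_MAIN) (h3 : S_VOL) : S_FIN := by
  intro p q hp hp2 hpq κ _ n l hS hl
  have hp0 : 0 < p := hpq.pos
  have hq0 : 0 < q := hpq.symm.pos
  rcases n with _ | r
  · have e1 : KK p l = univ := by
      refine eq_univ_of_forall fun x => ?_
      have hx : x = 0 := Subsingleton.elim _ _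
      rw [hx]
      exact zero_mem l hp0
    have e2 : PP (univ : Set (Fin 0 → ℝ)) = univ := by
      refine eq_univ_of_forall fun y x _ => ?_
      simp
    rw [e1, e2]
    have e3 : (volume : Measure (Fin 0 → ℝ)) univ = 1 := by
      rw [volume_pi, Measure.pi_of_empty _ 0]
      simp
    rw [e3]
    simp
  · obtain ⟨D, hD⟩ := h1 p q hp hp2 hpq
    have hM := h2 p q D hp hpq κ r l hS hl (fun y => dN (KK p l) y ^ q / q) (fun F => by
      exact div_le_div_of_nonneg_right (dN_form l hpq hS F) hq0.le)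
    have hV1 := h3 (r + 1) (gN l p) (gN_zero l hp0) (gN_neg l) (gN_add l hp.le)
      (gN_def l hp0 hS) (fun c x => (gN_smul l hp0 c x).le) p hp0
    have hV2 := h3 (r + 1) (dN (KK p l)) (dN_zero l hpq hS) (dN_neg l hpq hS) (dN_add l hpq hS)
      (dN_def l hpq hS) (dN_smul l hpq hS) q hq0
    have e1 : {x | gN l p x ≤ 1} = KK p l := by
      ext x
      exact gN_le_one l hp0 x
    have e2 : {y | dN (KK p l) y ≤ 1} = PP (KK p l) := by
      ext y
      exact dN_le_one l hpq hS y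
    rw [e1] at hV1
    rw [e2] at hV2
    simp only [gN_pow l hp0] at hV1
    rw [hV1, hV2, hD] at hM
    set a : ℝ := ((r + 1 : ℕ) : ℝ) / p with ha
    set b : ℝ := ((r + 1 : ℕ) : ℝ) / q with hb
    have ha0 : 0 < a := by rw [ha]; positivity
    have hb0 : 0 < b := by rw [hb]; positivity
    have hGa : 0 < Real.Gamma (a + 1) := Real.Gamma_pos_of_pos (by linarith)
    have hGb : 0 < Real.Gamma (b + 1) := Real.Gamma_pos_of_pos (by linarith)
    have hpa : p ^ a = (p ^ (1 / p)) ^ (r + 1) := by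
      rw [← Real.rpow_natCast, ← Real.rpow_mul hp0.le, ha]
      congr 1
      ring
    have hqb : q ^ b = (q ^ (1 / q)) ^ (r + 1) := by
      rw [← Real.rpow_natCast, ← Real.rpow_mul hq0.le, hb]
      congr 1
      ring
    have hcp : 0 < p ^ a * Real.Gamma (a + 1) := mul_pos (Real.rpow_pos_of_pos hp0 _) hGa
    have hcq : 0 < q ^ b * Real.Gamma (b + 1) := mul_pos (Real.rpow_pos_of_pos hq0 _) hGb
    have key : AA p q ^ (r + 1) = (p ^ a * Real.Gamma (a + 1)) * (q ^ b * Real.Gamma (b + 1)) *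
        (((2 * Real.Gamma (1 / p + 1)) ^ (r + 1) / Real.Gamma (a + 1)) *
          ((2 * Real.Gamma (1 / q + 1)) ^ (r + 1) / Real.Gamma (b + 1))) := by
      have g1 : ∀ u v w u' v' w' x x' : ℝ, x ≠ 0 → x' ≠ 0 →
          (u * v * w * (u' * v' * w')) ^ (r + 1) = v ^ (r + 1) * x * (v' ^ (r + 1) * x') *
            ((u * w) ^ (r + 1) / x * ((u' * w') ^ (r + 1) / x')) := by
        intro u v w u' v' w' x x' hx hx'
        have g2 : v ^ (r + 1) * x * (v' ^ (r + 1) * x') *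
            ((u * w) ^ (r + 1) / x * ((u' * w') ^ (r + 1) / x')) =
            v ^ (r + 1) * v' ^ (r + 1) * (u * w) ^ (r + 1) * (u' * w') ^ (r + 1) := by
          field_simp
        rw [g2, ← mul_pow, ← mul_pow, ← mul_pow]
        congr 1
        ring
      rw [hpa, hqb, AA]
      exact g1 _ _ _ _ _ _ _ _ hGa.ne' hGb.ne'
    rw [key, ENNReal.ofReal_mul (mul_pos hcp hcq).le, ENNReal.ofReal_mul hcp.le] at hM
    have hc : ENNReal.ofReal (p ^ a * Real.Gamma (a + 1)) *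
        ENNReal.ofReal (q ^ b * Real.Gamma (b + 1)) ≠ 0 :=
      mul_ne_zero (ENNReal.ofReal_pos.2 hcp).ne' (ENNReal.ofReal_pos.2 hcq).ne'
    have hc' : ENNReal.ofReal (p ^ a * Real.Gamma (a + 1)) *
        ENNReal.ofReal (q ^ b * Real.Gamma (b + 1)) ≠ ⊤ :=
      ENNReal.mul_ne_top ENNReal.ofReal_ne_top ENNReal.ofReal_ne_top
    have e3 : ENNReal.ofReal (p ^ a * Real.Gamma (a + 1)) * volume (KK p l) *
        (ENNReal.ofReal (q ^ b * Real.Gamma (b + 1)) * volume (PP (KK p l))) =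
        (ENNReal.ofReal (p ^ a * Real.Gamma (a + 1)) * ENNReal.ofReal (q ^ b * Real.Gamma (b + 1))) *
          (volume (KK p l) * volume (PP (KK p l))) := by ring
    rw [e3] at hM
    exact (ENNReal.mul_le_mul_iff_right hc hc').1 hM

end H160LP
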