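import Pool.Agent.Run7.h356.LP.Stm

/-!
Piece ZF: the linear change of variables.
-/

set_option autoImplicit false

noncomputable section

open MeasureTheory Filter Topology Set
open scoped BigOperators Matrix ENNReal

namespace H160LP

open H712MA H356LP

lemma mp_split (n : ℕ) :
    MeasurePreserving (fun z : Fin n → ℂ => ((fun i => (z i).re, fun i => (z i).im) : E2 n)) := by
  have h1 : MeasurePreserving (fun (z : Fin n → ℂ) (i : Fin n) =>
      Complex.measurableEquivRealProd (z i)) :=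
    volume_preserving_pi fun _ => Complex.volume_preserving_equiv_real_prod
  have h2 := volume_measurePreserving_arrowProdEquivProdArrow ℝ ℝ (Fin n)
  exact h2.comp h1

variable {κ : Type} {n : ℕ}

theorem pk_zf (l : κ → Fin n → ℝ) (f : Fin n → κ) (h : dt l f ≠ 0) (t : Fin n → ℂ) (i : Fin n) :
    pk (l (f i)) (zf l f t) = t i := by
  have hu : IsUnit (Matrix.of fun i j => l (f i) j).det := isUnit_iff_ne_zero.2 h
  have h1 : ∀ x : Fin n → ℝ, l (f i) ⬝ᵥ ((Matrix.of fun i j => l (f i) j)⁻¹ *ᵥ x) = x i := by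
    intro x
    change ((Matrix.of fun i j => l (f i) j) *ᵥ ((Matrix.of fun i j => l (f i) j)⁻¹ *ᵥ x)) i = x i
    rw [Matrix.mulVec_mulVec, Matrix.mul_nonsing_inv _ hu, Matrix.one_mulVec]
  unfold pk zf
  rw [h1, h1]

theorem zf_unique (l : κ → Fin n → ℝ) (f : Fin n → κ) (h : dt l f ≠ 0) (t : Fin n → ℂ) (z : E2 n)
    (hz : ∀ i, pk (l (f i)) z = t i) : z = zf l f t := by
  have hu : IsUnit (Matrix.of fun i j => l (f i) j).det := isUnit_iff_ne_zero.2 h
  have h1 : ∀ x y : Fin n → ℝ, (∀ i, l (f i) ⬝ᵥ x = y i) →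
      x = (Matrix.of fun i j => l (f i) j)⁻¹ *ᵥ y := by
    intro x y hxy
    have h2 : (Matrix.of fun i j => l (f i) j) *ᵥ x = y := funext hxy
    rw [← h2, Matrix.mulVec_mulVec, Matrix.nonsing_inv_mul _ hu, Matrix.one_mulVec]
  refine Prod.ext (h1 _ _ fun i => ?_) (h1 _ _ fun i => ?_)
  · have := congrArg Complex.re (hz i)
    exact this
  · have := congrArg Complex.im (hz i)
    exact this

theorem zf_cont (l : κ → Fin n → ℝ) (f : Fin n → κ) : Continuous (zf l f) := by
  unfold zf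
  refine Continuous.prodMk ?_ ?_
  · exact Continuous.matrix_mulVec continuous_const
      (continuous_pi fun i => Complex.continuous_re.comp (continuous_apply i))
  · exact Continuous.matrix_mulVec continuous_const
      (continuous_pi fun i => Complex.continuous_im.comp (continuous_apply i))

theorem zf_int (l : κ → Fin n → ℝ) (f : Fin n → κ) (h0 : dt l f ≠ 0) (X : E2 n → ℝ≥0∞)
    (hX : Measurable X) :
    ∫⁻ z, ENNReal.ofReal ((dt l f) ^ 2) * X z = ∫⁻ t : Fin n → ℂ, X (zf l f t) := by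
  set A : Matrix (Fin n) (Fin n) ℝ := Matrix.of fun i j => l (f i) j with hA
  have hdet : A.det ≠ 0 := h0
  have hu : IsUnit A.det := isUnit_iff_ne_zero.2 h0
  have hm := Real.map_matrix_volume_pi_eq_smul_volume_pi hdet
  have hT : Measurable (Matrix.toLin' A) :=
    (LinearMap.continuous_of_finiteDimensional (Matrix.toLin' A)).measurable
  have hT' : Measurable (Matrix.toLin' A⁻¹) :=
    (LinearMap.continuous_of_finiteDimensional (Matrix.toLin' A⁻¹)).measurable
  have hmap : Measure.map (Prod.map (Matrix.toLin' A) (Matrix.toLin' A)) (volume : Measure (E2 n)) =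
      (ENNReal.ofReal |A.det⁻¹| * ENNReal.ofReal |A.det⁻¹|) • (volume : Measure (E2 n)) := by
    have h1 := Measure.map_prod_map (volume : Measure (Fin n → ℝ)) (volume : Measure (Fin n → ℝ))
      hT hT
    rw [hm] at h1
    rw [Measure.volume_eq_prod, ← h1, Measure.prod_smul_left, Measure.prod_smul_right, smul_smul]
  set G : E2 n → ℝ≥0∞ := fun z => X (Prod.map (Matrix.toLin' A⁻¹) (Matrix.toLin' A⁻¹) z) with hG
  have hGm : Measurable G := hX.comp (hT'.prodMap hT')
  have hinv : ∀ x : Fin n → ℝ, Matrix.toLin' A⁻¹ (Matrix.toLin' A x) = x := by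
    intro x
    rw [Matrix.toLin'_apply, Matrix.toLin'_apply, Matrix.mulVec_mulVec, Matrix.nonsing_inv_mul _ hu,
      Matrix.one_mulVec]
  have e1 : ∀ z : E2 n, X z = G (Prod.map (Matrix.toLin' A) (Matrix.toLin' A) z) := by
    intro z
    have h3 : Prod.map (Matrix.toLin' A⁻¹) (Matrix.toLin' A⁻¹)
        (Prod.map (Matrix.toLin' A) (Matrix.toLin' A) z) = z := Prod.ext (hinv z.1) (hinv z.2)
    change X z = X (Prod.map (Matrix.toLin' A⁻¹) (Matrix.toLin' A⁻¹)
        (Prod.map (Matrix.toLin' A) (Matrix.toLin' A) z))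
    rw [h3]
  have e2 : ∫⁻ z : E2 n, G z = ∫⁻ t : Fin n → ℂ, X (zf l f t) := by
    rw [← (mp_split n).lintegral_comp hGm]
    rfl
  rw [lintegral_const_mul' _ _ ENNReal.ofReal_ne_top, lintegral_congr e1,
    ← lintegral_map hGm (hT.prodMap hT), hmap, lintegral_smul_measure, e2, smul_eq_mul,
    ← mul_assoc]
  have e3 : ENNReal.ofReal ((dt l f) ^ 2) *
      (ENNReal.ofReal |A.det⁻¹| * ENNReal.ofReal |A.det⁻¹|) = 1 := by
    rw [← ENNReal.ofReal_mul (abs_nonneg _), ← ENNReal.ofReal_mul (sq_nonneg _)]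
    have : (dt l f) ^ 2 * (|A.det⁻¹| * |A.det⁻¹|) = 1 := by
      rw [abs_mul_abs_self]
      have : dt l f = A.det := rfl
      rw [this]
      field_simp
    rw [this, ENNReal.ofReal_one]
  rw [e3, one_mul]

theorem dt_sc (l : κ → Fin n → ℝ) (f : Fin n → κ) (p : ℝ) (s : κ → ℝ) :
    dt (sc p s l) f = (∏ i, s (f i) ^ (-(1 / p))) * dt l f := by
  unfold dt
  rw [← Matrix.det_mul_column]
  rfl

theorem pk_sc (l : κ → Fin n → ℝ) (p : ℝ) (s : κ → ℝ) (k : κ) (z : E2 n) :
    pk (sc p s l k) z = ((s k ^ (-(1 / p)) : ℝ) : ℂ) * pk (l k) z := by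
  apply Complex.ext
  · simp [pk, sc, smul_dotProduct]
  · simp [pk, sc, smul_dotProduct]

theorem ZF : S_ZF := by
  intro κ _ n l f h0
  refine ⟨fun t i => pk_zf l f h0 t i, zf_cont l f, fun X hX => zf_int l f h0 X hX, ?_⟩
  intro p s hs
  have h1 : dt (sc p s l) f ≠ 0 := by
    rw [dt_sc]
    exact mul_ne_zero (Finset.prod_ne_zero_iff.2 fun i _ => (Real.rpow_pos_of_pos (hs _) _).ne') h0
  refine ⟨h1, fun t => ?_⟩
  refine zf_unique l f h0 _ _ fun i => ?_
  have h2 := pk_zf (sc p s l) f h1 t i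
  rw [pk_sc] at h2
  have h3 : (s (f i) ^ (1 / p) : ℝ) * (s (f i) ^ (-(1 / p)) : ℝ) = 1 := by
    rw [← Real.rpow_add (hs _), add_neg_cancel, Real.rpow_zero]
  rw [← h2, ← mul_assoc, ← Complex.ofReal_mul, h3, Complex.ofReal_one, one_mul]

end H160LP
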